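import Pool.Agent.Helper866.OutMain

set_option autoImplicit false

namespace Pool.Agent.Results.MP_a5f8b0_al.OutCT

/-- the residue class `r(m) = {r + k m : k ∈ ℤ}` -/
def resClass (r m : ℤ) : Set ℤ := {n | ∃ k : ℤ, n = r + k * m}

/-- `σ` is the class transposition `τ_{r₁(m₁), r₂(m₂)}` of two disjoint residue classes, written with
`0 ≤ r₁ < m₁` and `0 ≤ r₂ < m₂` -/
def IsClassTransposition (σ : Equiv.Perm ℤ) : Prop :=
  ∃ r₁ m₁ r₂ m₂ : ℤ, 0 ≤ r₁ ∧ r₁ < m₁ ∧ 0 ≤ r₂ ∧ r₂ < m₂ ∧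
    Disjoint (resClass r₁ m₁) (resClass r₂ m₂) ∧
    (∀ k : ℤ, σ (r₁ + k * m₁) = r₂ + k * m₂ ∧ σ (r₂ + k * m₂) = r₁ + k * m₁) ∧
    ∀ n : ℤ, n ∉ resClass r₁ m₁ → n ∉ resClass r₂ m₂ → σ n = n

/-- the group `CT(ℤ)` generated by all class transpositions -/
def CT : Subgroup (Equiv.Perm ℤ) := Subgroup.closure {σ | IsClassTransposition σ}

theorem refl_invol : Function.Involutive (fun n : ℤ => -n - 1) := by
  intro n
  ring

/-- the reflection `ν(n) = -n - 1` -/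
def nu : Equiv.Perm ℤ := refl_invol.toPerm

/-- inner automorphisms form a normal subgroup -/
instance innNormal (G : Type) [Group G] : (MulAut.conj : G →* MulAut G).range.Normal where
  conj_mem := by
    rintro _ ⟨g, rfl⟩ Φ
    refine ⟨Φ g, ?_⟩
    ext x
    simp [MulAut.conj_apply, MulAut.mul_apply]

/-- the outer automorphism group `Aut(G)/Inn(G)` -/
abbrev Out (G : Type) [Group G] : Type := MulAut G ⧸ (MulAut.conj : G →* MulAut G).range

/-- `Out(G)` is cyclic of order two, generated by the class of `α`: every automorphism is inner or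
an inner one times `α`, `α` is not inner, and `Out(G) ≅ ℤ/2` with the class of `α` going to `1` -/
def OutIsCyclicTwo (G : Type) [Group G] (α : MulAut G) : Prop :=
  (∀ Φ : MulAut G, ∃ h : G, Φ = MulAut.conj h ∨ Φ = MulAut.conj h * α) ∧
  (∀ h : G, α ≠ MulAut.conj h) ∧
  ∃ e : Out G ≃* Multiplicative (ZMod 2), e (QuotientGroup.mk α) = Multiplicative.ofAdd 1

open Pool.Agent.Helper866.Out Pool.Agent.Helper111.CT in
theorem CT_eq : CT = CTg Tr := by
  unfold CT CTg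
  congr 1
  ext σ
  have key : ∀ n r m : ℤ, n ∈ resClass r m ↔ m ∣ n - r := by
    intro n r m
    constructor
    · rintro ⟨k, rfl⟩; exact ⟨k, by ring⟩
    · rintro ⟨k, hk⟩; exact ⟨k, by linarith⟩
  simp only [Set.mem_ofPred_eq, IsClassTransposition, IsCT, key, true_and,
    Set.disjoint_left, not_and]
  constructor
  · rintro ⟨r₁, m₁, r₂, m₂, h1, h2, h3, h4, h5, h6, h7⟩
    exact ⟨r₁, m₁, r₂, m₂, h1, h2, h3, h4, h5, fun k => by simpa only [mul_comm] using h6 k, h7⟩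
  · rintro ⟨r₁, m₁, r₂, m₂, h1, h2, h3, h4, h5, h6, h7⟩
    exact ⟨r₁, m₁, r₂, m₂, h1, h2, h3, h4, h5, fun k => by simpa only [mul_comm] using h6 k, h7⟩

theorem nu_apply (n : ℤ) : nu n = -n - 1 := rfl

theorem nu_inv : nu⁻¹ = nu := rfl

theorem nu_mul_nu : nu * nu = 1 := by
  ext n
  change -(-n - 1) - 1 = n
  ring

theorem nu_conj_mem {g : Equiv.Perm ℤ} (hg : g ∈ CT) : nu⁻¹ * g * nu ∈ CT := by
  rw [CT_eq] at hg ⊢
  have := Pool.Agent.Helper866.Out.nu_conj nu_apply hg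
  rwa [nu_inv] at this ⊢

/-- the map `σ ↦ ν⁻¹ σ ν` on `CT(ℤ)` -/
def alphaFun (g : CT) : CT := ⟨nu⁻¹ * (g : Equiv.Perm ℤ) * nu, nu_conj_mem g.2⟩

theorem alphaFun_invol (g : CT) : alphaFun (alphaFun g) = g := by
  apply Subtype.ext
  change nu * (nu * (g : Equiv.Perm ℤ) * nu) * nu = g
  calc nu * (nu * (g : Equiv.Perm ℤ) * nu) * nu = (nu * nu) * g * (nu * nu) := by group
    _ = g := by rw [nu_mul_nu]; group

theorem alphaFun_mul (g h : CT) : alphaFun (g * h) = alphaFun g * alphaFun h := by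
  apply Subtype.ext
  change nu⁻¹ * ((g : Equiv.Perm ℤ) * h) * nu = (nu⁻¹ * g * nu) * (nu⁻¹ * h * nu)
  group

/-- the automorphism `σ ↦ ν⁻¹ σ ν` of `CT(ℤ)` -/
def alphaNu : MulAut CT where
  toFun := alphaFun
  invFun := alphaFun
  left_inv := alphaFun_invol
  right_inv := alphaFun_invol
  map_mul' := alphaFun_mul

/-- `α_ν` is `σ ↦ ν⁻¹ σ ν` -/
theorem alphaNu_apply (g : CT) : ((alphaNu g : CT) : Equiv.Perm ℤ) = nu⁻¹ * g * nu := rfl

theorem alphaNu_sq : alphaNu * alphaNu = 1 := by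
  ext g n
  change ((alphaNu (alphaNu g) : CT) : Equiv.Perm ℤ) n = (g : Equiv.Perm ℤ) n
  have : alphaNu (alphaNu g) = g := alphaNu.left_inv g
  rw [this]

theorem aut_CT (Φ : MulAut CT) : ∃ h : CT, Φ = MulAut.conj h ∨ Φ = MulAut.conj h * alphaNu := by
  have key : ∀ (G : Subgroup (Equiv.Perm ℤ)), G = Pool.Agent.Helper111.CT.CTg
      Pool.Agent.Helper866.Out.Tr → ∀ Θ : G ≃* G, ∃ h ∈ G,
      (∀ g : G, ((Θ g : G) : Equiv.Perm ℤ) = h * (g : Equiv.Perm ℤ) * h⁻¹) ∨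
      (∀ g : G, ((Θ g : G) : Equiv.Perm ℤ) = h * nu * (g : Equiv.Perm ℤ) * nu⁻¹ * h⁻¹) := by
    rintro G rfl Θ
    exact Pool.Agent.Helper866.Out.aut_form nu_apply Θ
  obtain ⟨h, hh, h1 | h1⟩ := key CT CT_eq Φ
  · refine ⟨⟨h, hh⟩, Or.inl ?_⟩
    ext g : 2
    rw [h1 g]; rfl
  · refine ⟨⟨h, hh⟩, Or.inr ?_⟩
    ext g : 2
    rw [h1 g]
    change h * nu * (g : Equiv.Perm ℤ) * nu⁻¹ * h⁻¹ = h * (nu⁻¹ * (g : Equiv.Perm ℤ) * nu) * h⁻¹
    rw [nu_inv]; group

theorem alphaNu_not_inner (h : CT) : alphaNu ≠ MulAut.conj h := by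
  intro hc
  have h1 := Pool.Agent.Helper866.Out.not_inner (ν := nu) nu_apply
  rw [← CT_eq] at h1
  apply h1
  refine ⟨h, h.2, fun g hg => ?_⟩
  have h2 := congrArg (fun Φ : MulAut CT => ((Φ ⟨g, hg⟩ : CT) : Equiv.Perm ℤ)) hc
  have h3 : nu⁻¹ * g * nu = (h : Equiv.Perm ℤ) * g * (h : Equiv.Perm ℤ)⁻¹ := h2
  rw [nu_inv] at h3
  rw [nu_inv]; exact h3

theorem index_two : (MulAut.conj : CT →* MulAut CT).range.index = 2 := by
  rw [Subgroup.index_eq_two_iff]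
  refine ⟨alphaNu, fun b => ?_⟩
  have hn : alphaNu ∉ (MulAut.conj : CT →* MulAut CT).range := by
    rintro ⟨h, hh⟩
    exact alphaNu_not_inner h hh.symm
  obtain ⟨h, h1 | h1⟩ := aut_CT b
  · refine Or.inr ⟨⟨h, h1.symm⟩, fun hc => ?_⟩
    apply hn
    have h2 : b ∈ (MulAut.conj : CT →* MulAut CT).range := ⟨h, h1.symm⟩
    have := Subgroup.mul_mem _ (Subgroup.inv_mem _ h2) hc
    rwa [inv_mul_cancel_left] at this
  · refine Or.inl ⟨⟨h, ?_⟩, fun hc => ?_⟩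
    · rw [h1, mul_assoc, alphaNu_sq, mul_one]
    · apply hn
      have h2 : MulAut.conj h ∈ (MulAut.conj : CT →* MulAut CT).range := ⟨h, rfl⟩
      have := Subgroup.mul_mem _ (Subgroup.inv_mem _ h2) hc
      rwa [h1, inv_mul_cancel_left] at this

theorem mul_two_elements : ∀ z : Multiplicative (ZMod 2), z ≠ 1 → z = Multiplicative.ofAdd 1 := by
  decide

/-- **Out(CT(ℤ)) is cyclic of order two, generated by the class of `α_ν : σ ↦ ν⁻¹ σ ν`.**
Every automorphism of `CT(ℤ)` is inner or an inner automorphism times `α_ν`, and `α_ν` is not inner. -/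
theorem result : ∃ α : MulAut CT,
    (∀ σ : CT, (α σ : Equiv.Perm ℤ) = nu⁻¹ * (σ : Equiv.Perm ℤ) * nu) ∧ OutIsCyclicTwo CT α := by
  refine ⟨alphaNu, alphaNu_apply, aut_CT, alphaNu_not_inner, ?_⟩
  have : Fact (Nat.Prime 2) := ⟨Nat.prime_two⟩
  have hcard : Nat.card (Out CT) = 2 := index_two
  have hcard' : Nat.card (Multiplicative (ZMod 2)) = 2 := by simp
  let e : Out CT ≃* Multiplicative (ZMod 2) := mulEquivOfPrimeCardEq hcard hcard'
  refine ⟨e, ?_⟩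
  have hne : e (QuotientGroup.mk alphaNu) ≠ 1 := by
    intro hc
    have h1 : (QuotientGroup.mk alphaNu : Out CT) = 1 := e.injective (hc.trans (map_one e).symm)
    rw [QuotientGroup.eq_one_iff] at h1
    obtain ⟨h, hh⟩ := h1
    exact alphaNu_not_inner h hh.symm
  exact mul_two_elements _ hne

end Pool.Agent.Results.MP_a5f8b0_al.OutCT
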